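import Mathlib

open Filter Topology Set

namespace Pool.Agent.Results.MP_9b97c3_lc.InfiniteGroups

/-- The `G`-jump `E^[G]` of an equivalence relation `E` on `X`: the equivalence relation on
`X^G` with `α ~ β` iff there is `g` in `G` with `α (g⁻¹ h) E β h` for all `h` in `G`. -/
def groupJump {X : Type*} (G : Type*) [Group G] (E : Setoid X) : Setoid (G → X) where
  r α β := ∃ g : G, ∀ h : G, E (α (g⁻¹ * h)) (β h)
  iseqv :=
    { refl := fun α => ⟨1, fun h => by simpa using E.refl' (α h)⟩
      symm := by
        rintro α β ⟨g, hg⟩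
        refine ⟨g⁻¹, fun h => ?_⟩
        have := hg (g * h)
        rw [inv_mul_cancel_left] at this
        simpa using E.symm' this
      trans := by
        rintro α β γ ⟨g, hg⟩ ⟨k, hk⟩
        refine ⟨k * g, fun h => ?_⟩
        have h1 := hg (k⁻¹ * h)
        have h2 := hk h
        have := E.trans' h1 h2
        simpa [mul_assoc] using this }

/-- Borel reducibility of equivalence relations on topological spaces. -/
def BorelReducible {X Y : Type*} [TopologicalSpace X] [TopologicalSpace Y]
    (E : Setoid X) (F : Setoid Y) : Prop :=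
  ∃ f : X → Y, @Measurable X Y (borel X) (borel Y) f ∧ ∀ x x' : X, E x x' ↔ F (f x) (f x')

/-- An equivalence relation is smooth if it is Borel reducible to equality on a Polish space. -/
def IsSmooth {X : Type*} [TopologicalSpace X] (E : Setoid X) : Prop :=
  ∃ (Z : Type) (_ : TopologicalSpace Z) (_ : PolishSpace Z), BorelReducible E (⊥ : Setoid Z)

section Category

/-- A Borel map into a second countable space is continuous on a residual set. -/
lemma exists_residual_continuousOn {W Z : Type*} [TopologicalSpace W] [TopologicalSpace Z]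
    [SecondCountableTopology Z] (f : W → Z) (hf : @Measurable W Z (borel W) (borel Z) f) :
    ∃ C ∈ residual W, ContinuousOn f C := by
  classical
  borelize W
  borelize Z
  obtain ⟨b, hbc, -, hb⟩ := TopologicalSpace.exists_countable_basis Z
  have hU : ∀ U ∈ b, ∃ V : Set W, IsOpen V ∧ f ⁻¹' U =ᶠ[residual W] V := fun U hU =>
    (hf (hb.isOpen hU).measurableSet).residualEq_isOpen
  choose! V hVo hV using hU
  refine ⟨{x | ∀ U ∈ b, (f x ∈ U ↔ x ∈ V U)}, ?_, ?_⟩
  · have : ∀ᶠ x in residual W, ∀ U ∈ b, (f x ∈ U ↔ x ∈ V U) := by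
      rw [eventually_countable_ball hbc]
      intro U hU
      filter_upwards [hV U hU] with x hx
      exact iff_of_eq hx
    exact this
  · intro x hx
    rw [ContinuousWithinAt, hb.nhds_hasBasis.tendsto_right_iff]
    rintro U ⟨hUb, hxU⟩
    have h1 : V U ∈ 𝓝 x := (hVo U hUb).mem_nhds ((hx U hUb).1 hxU)
    filter_upwards [mem_nhdsWithin_of_mem_nhds h1, self_mem_nhdsWithin] with y hy1 hy2
    exact (hy2 U hUb).2 hy1

/-- The easy half of the Kuratowski-Ulam theorem. -/
lemma kuratowskiUlam {P Q : Type*} [TopologicalSpace P] [TopologicalSpace Q]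
    [SecondCountableTopology Q] {D : Set (P × Q)} (hD : D ∈ residual (P × Q)) :
    ∀ᶠ p in residual P, ∀ᶠ q in residual Q, (p, q) ∈ D := by
  obtain ⟨b, hbc, hbe, hb⟩ := TopologicalSpace.exists_countable_basis Q
  rw [mem_residual_iff] at hD
  obtain ⟨S, hSo, hSd, hSc, hSD⟩ := hD
  have key : ∀ᶠ p in residual P, ∀ O ∈ S, ∀ V ∈ b, ∃ q ∈ V, (p, q) ∈ O := by
    rw [eventually_countable_ball hSc]
    intro O hO
    rw [eventually_countable_ball hbc]
    intro V hV
    have hne : V.Nonempty := by
      rw [nonempty_iff_ne_empty]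
      rintro rfl
      exact hbe hV
    have hset : {p : P | ∃ q ∈ V, (p, q) ∈ O} = Prod.fst '' (O ∩ (univ ×ˢ V)) := by
      ext p
      constructor
      · rintro ⟨q, hq, hO⟩
        exact ⟨(p, q), ⟨hO, ⟨mem_univ _, hq⟩⟩, rfl⟩
      · rintro ⟨⟨p', q⟩, ⟨hO, ⟨-, hq⟩⟩, rfl⟩
        exact ⟨q, hq, hO⟩
    have hopen : IsOpen {p : P | ∃ q ∈ V, (p, q) ∈ O} := by
      rw [hset]
      exact isOpenMap_fst _ ((hSo O hO).inter (isOpen_univ.prod (hb.isOpen hV)))
    refine residual_of_dense_open hopen ?_
    rw [dense_iff_inter_open]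
    intro U hU hUne
    obtain ⟨⟨p, q⟩, ⟨hp, hq⟩, hpq⟩ := (hSd O hO).inter_open_nonempty (U ×ˢ V)
      (hU.prod (hb.isOpen hV)) (hUne.prod hne)
    exact ⟨p, hp, q, hq, hpq⟩
  filter_upwards [key] with p hp
  have : ∀ᶠ q in residual Q, ∀ O ∈ S, (p, q) ∈ O := by
    rw [eventually_countable_ball hSc]
    intro O hO
    have hcont : Continuous (fun q : Q => (p, q)) := by fun_prop
    refine residual_of_dense_open ((hSo O hO).preimage hcont) ?_
    rw [hb.dense_iff]
    intro V hV hVne
    obtain ⟨q, hq, hqO⟩ := hp O hO V hV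
    exact ⟨q, hq, hqO⟩
  filter_upwards [this] with q hq
  exact hSD (mem_sInter.2 hq)

end Category

section Shift

variable {G : Type*} [Group G]

/-- The shift action of `G` on `G → Bool`. -/
def shift (g : G) (y : G → Bool) : G → Bool := fun h => y (g⁻¹ * h)

lemma bot_jump_iff (y y' : G → Bool) :
    (groupJump G (⊥ : Setoid Bool)) y y' ↔ ∃ g : G, shift g y = y' := by
  constructor
  · rintro ⟨g, hg⟩
    exact ⟨g, funext fun h => hg h⟩
  · rintro ⟨g, rfl⟩
    exact ⟨g, fun h => (⊥ : Setoid Bool).refl' _⟩

/-- Generic points of `G → Bool` have a dense orbit. -/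
lemma eventually_dense_orbit [Countable G] [Infinite G] :
    ∀ᶠ y in residual (G → Bool), ∀ V : Set (G → Bool), IsOpen V → V.Nonempty →
      ∃ g : G, shift g y ∈ V := by
  classical
  obtain ⟨b, hbc, hbe, hb⟩ := TopologicalSpace.exists_countable_basis (G → Bool)
  have key : ∀ᶠ y in residual (G → Bool), ∀ V ∈ b, ∃ g : G, shift g y ∈ V := by
    rw [eventually_countable_ball hbc]
    intro V hV
    have hne : V.Nonempty := by
      rw [nonempty_iff_ne_empty]
      rintro rfl
      exact hbe hV
    have hset : {y : G → Bool | ∃ g : G, shift g y ∈ V} = ⋃ g : G, (shift g) ⁻¹' V := by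
      ext y
      simp
    have hcont : ∀ g : G, Continuous (shift g) := by
      intro g
      unfold shift
      fun_prop
    refine residual_of_dense_open ?_ ?_
    · rw [hset]
      exact isOpen_iUnion fun g => (hb.isOpen hV).preimage (hcont g)
    · rw [dense_iff_inter_open]
      intro U hU hUne
      obtain ⟨u, hu⟩ := hUne
      obtain ⟨v, hv⟩ := hne
      obtain ⟨I, I', hI1, hI2⟩ := (isOpen_pi_iff.1 hU) u hu
      obtain ⟨J, J', hJ1, hJ2⟩ := (isOpen_pi_iff.1 (hb.isOpen hV)) v hv
      obtain ⟨g, hg⟩ : ∃ g : G, g ∉ (J ×ˢ I).image (fun p => p.1 * p.2⁻¹) :=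
        Infinite.exists_notMem_finset _
      refine ⟨fun x => if x ∈ I then u x else v (g * x), hI2 ?_, g, hJ2 ?_⟩
      · intro i hi
        have hi' : i ∈ I := hi
        simp only [hi', if_true]
        exact (hI1 i hi').2
      · intro j hj
        have hj' : j ∈ J := hj
        have hnot : g⁻¹ * j ∉ I := by
          intro hmem
          apply hg
          rw [Finset.mem_image]
          refine ⟨(j, g⁻¹ * j), Finset.mk_mem_product hj' hmem, ?_⟩
          simp
        simp only [shift, hnot, if_false, mul_inv_cancel_left]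
        exact (hJ1 j hj').2
  filter_upwards [key] with y hy V hV hVne
  obtain ⟨v, hv⟩ := hVne
  obtain ⟨U, hU, hvU, hUV⟩ := hb.exists_subset_of_mem_open hv hV
  obtain ⟨g, hg⟩ := hy U hU
  exact ⟨g, hUV hg⟩

/-- Each point of `G → Bool` is avoided generically. -/
lemma eventually_ne [Infinite G] (y₀ : G → Bool) :
    ∀ᶠ y in residual (G → Bool), y ≠ y₀ := by
  classical
  refine residual_of_dense_open isOpen_ne ?_
  rw [dense_iff_inter_open]
  intro U hU hUne
  obtain ⟨u, hu⟩ := hUne
  obtain ⟨I, I', hI1, hI2⟩ := (isOpen_pi_iff.1 hU) u hu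
  obtain ⟨x, hx⟩ := Infinite.exists_notMem_finset I
  refine ⟨Function.update u x (!(y₀ x)), hI2 ?_, ?_⟩
  · intro i hi
    have hi' : i ∈ I := hi
    have hne : i ≠ x := by
      rintro rfl
      exact hx hi'
    rw [Function.update_of_ne hne]
    exact (hI1 i hi').2
  · intro h
    have := congrFun h x
    simp at this

end Shift

section Double

variable {G H : Type*} [Group G] [Group H]

/-- coordinatewise shift action of `H → G` on `H → G → Bool`. -/
def act (g : H → G) (A : H → G → Bool) : H → G → Bool := fun h => shift (g h) (A h)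

/-- the point that agrees with `u` on `F` and with `B` off `F`. -/
def merge [DecidableEq H] (F : Finset H) (u B : H → G → Bool) : H → G → Bool :=
  fun h => if h ∈ F then u h else B h

lemma act_rel (g : H → G) (A : H → G → Bool) :
    (groupJump H (groupJump G (⊥ : Setoid Bool))) A (act g A) := by
  refine ⟨1, fun h => ?_⟩
  rw [bot_jump_iff]
  exact ⟨g h, by simp [act]⟩

lemma continuous_act' [TopologicalSpace G] [DiscreteTopology G] :
    Continuous (fun p : (H → G → Bool) × (H → G) => act p.2 p.1) := by
  rw [continuous_pi_iff]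
  intro h
  rw [continuous_pi_iff]
  intro k
  have h1 : Continuous (fun p : (G → Bool) × G => p.1 (p.2⁻¹ * k)) := by
    rw [continuous_prod_of_discrete_right]
    intro b
    exact continuous_apply (b⁻¹ * k)
  have h2 : Continuous (fun p : (H → G → Bool) × (H → G) => (p.1 h, p.2 h)) := by fun_prop
  exact h1.comp h2

lemma isOpenMap_act [TopologicalSpace G] [DiscreteTopology G] :
    IsOpenMap (fun p : (H → G → Bool) × (H → G) => act p.2 p.1) := by
  refine IsOpenMap.of_sections fun x => ?_
  refine ⟨fun w => (fun h k => w h (x.2 h * k), x.2), ?_, ?_, ?_⟩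
  · apply Continuous.continuousAt
    fun_prop
  · ext h k
    · simp [act, shift]
    · rfl
  · intro w
    ext h k
    simp [act, shift]

lemma continuous_merge [DecidableEq H] (F : Finset H) :
    Continuous (fun p : (H → G → Bool) × (H → G → Bool) => merge F p.1 p.2) := by
  rw [continuous_pi_iff]
  intro h
  unfold merge
  by_cases hF : h ∈ F
  · simp only [hF, if_true]
    fun_prop
  · simp only [hF, if_false]
    fun_prop

lemma isOpenMap_merge [DecidableEq H] (F : Finset H) :
    IsOpenMap (fun p : (H → G → Bool) × (H → G → Bool) => merge F p.1 p.2) := by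
  refine IsOpenMap.of_sections fun x => ?_
  refine ⟨fun w => (merge F w x.1, merge F x.2 w), ?_, ?_, ?_⟩
  · apply Continuous.continuousAt
    have h1 : Continuous (fun w : H → G → Bool => merge F w x.1) :=
      (continuous_merge F).comp (by fun_prop : Continuous (fun w : H → G → Bool => (w, x.1)))
    have h2 : Continuous (fun w : H → G → Bool => merge F x.2 w) :=
      (continuous_merge F).comp (by fun_prop : Continuous (fun w : H → G → Bool => (x.2, w)))
    exact h1.prodMk h2
  · ext h k
    · simp only [merge]
      split_ifs <;> rfl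
    · simp only [merge]
      split_ifs <;> rfl
  · intro w
    ext h k
    simp only [merge]
    split_ifs <;> rfl

/-- The core theorem: the double jump of equality on `Bool` along infinite countable groups is
not Borel reducible to any equivalence relation with countable classes. -/
theorem core [Countable G] [Countable H] [Infinite G] [Infinite H]
    {Z : Type*} [TopologicalSpace Z] [SecondCountableTopology Z] [T2Space Z]
    (R : Setoid Z) (hR : ∀ z : Z, {z' : Z | R z z'}.Countable) :
    ¬ BorelReducible (groupJump H (groupJump G (⊥ : Setoid Bool))) R := by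
  classical
  rintro ⟨f, hf, hred⟩
  let _ : TopologicalSpace G := ⊥
  have : DiscreteTopology G := ⟨rfl⟩
  obtain ⟨C, hC, hfC⟩ := exists_residual_continuousOn f hf
  -- generic points
  have hC' : ∀ᶠ u in residual (H → G → Bool), u ∈ C ∧
      ∀ F : Finset H, ∀ᶠ B in residual (H → G → Bool), merge F u B ∈ C := by
    refine Filter.Eventually.and hC ?_
    rw [eventually_countable_forall]
    intro F
    have := tendsto_residual_of_isOpenMap (continuous_merge (G := G) F) (isOpenMap_merge F)
    exact kuratowskiUlam (this hC)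
  have hact : ∀ᶠ A in residual (H → G → Bool), ∀ᶠ g in residual (H → G),
      (act g A ∈ C ∧ ∀ F : Finset H, ∀ᶠ B in residual (H → G → Bool), merge F (act g A) B ∈ C) := by
    have := tendsto_residual_of_isOpenMap (continuous_act' (G := G) (H := H)) isOpenMap_act
    exact kuratowskiUlam (this hC')
  have horb : ∀ᶠ A in residual (H → G → Bool), ∀ h : H, ∀ V : Set (G → Bool), IsOpen V →
      V.Nonempty → ∃ g : G, shift g (A h) ∈ V := by
    rw [eventually_countable_forall]
    intro h
    have ht : Tendsto (fun A : H → G → Bool => A h) (residual _) (residual (G → Bool)) :=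
      tendsto_residual_of_isOpenMap (continuous_apply h) (isOpenMap_eval h)
    exact ht.eventually (eventually_dense_orbit (G := G))
  obtain ⟨A, hA1, hA2⟩ := (dense_of_mem_residual (hact.and horb)).nonempty
  set M : Set (H → G) := {g | act g A ∈ C ∧
    ∀ F : Finset H, ∀ᶠ B in residual (H → G → Bool), merge F (act g A) B ∈ C} with hM
  have hMres : M ∈ residual (H → G) := hA1
  have hMd : Dense M := dense_of_mem_residual hMres
  have hactc : Continuous (fun g : H → G => act g A) :=
    continuous_act'.comp (by fun_prop : Continuous (fun g : H → G => (A, g)))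
  have hfM : ContinuousOn (fun g => f (act g A)) M :=
    hfC.comp hactc.continuousOn (fun g hg => hg.1)
  -- pigeonhole
  have hS := hR (f A)
  have hmem : ∀ g : H → G, f (act g A) ∈ {z' : Z | R (f A) z'} := fun g =>
    (hred A (act g A)).1 (act_rel g A)
  obtain ⟨z, hz⟩ : ∃ z : Z, (interior (closure {g | g ∈ M ∧ f (act g A) = z})).Nonempty := by
    by_contra hcon
    push Not at hcon
    have hall : ∀ᶠ g in residual (H → G), ∀ z ∈ {z' : Z | R (f A) z'},
        g ∉ closure {g | g ∈ M ∧ f (act g A) = z} := by
      rw [eventually_countable_ball hS]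
      intro z _
      refine residual_of_dense_open isClosed_closure.isOpen_compl ?_
      exact interior_eq_empty_iff_dense_compl.1 (hcon z)
    obtain ⟨g, hg1, hg2⟩ := (dense_of_mem_residual (hall.and hMres)).nonempty
    exact hg1 _ (hmem g) (subset_closure ⟨hg2, rfl⟩)
  set T : Set (H → G) := {g | g ∈ M ∧ f (act g A) = z} with hT
  obtain ⟨g₀', hg₀'⟩ := hz
  obtain ⟨g₀, hg₀i, hg₀T⟩ : (interior (closure T) ∩ T).Nonempty := by
    have : g₀' ∈ closure T := interior_subset hg₀'
    rw [mem_closure_iff] at this
    exact this _ isOpen_interior hg₀'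
  obtain ⟨F, F', hF1, hF2⟩ := (isOpen_pi_iff.1 isOpen_interior) g₀ hg₀i
  have hval : ∀ g ∈ M, (∀ h ∈ F, g h = g₀ h) → f (act g A) = z := by
    intro g hg hgF
    have hgcl : g ∈ closure T := by
      apply interior_subset
      apply hF2
      intro h hh
      rw [hgF h hh]
      exact (hF1 h hh).2
    have h1 : ContinuousWithinAt (fun g => f (act g A)) T g :=
      (hfM g hg).mono (fun x hx => hx.1)
    have h2 := h1.mem_closure_image hgcl
    have h3 : (fun g => f (act g A)) '' T ⊆ {z} := by
      rintro _ ⟨x, hx, rfl⟩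
      exact hx.2
    have h4 := closure_mono h3 h2
    rwa [closure_singleton] at h4
  set u := act g₀ A with hu
  have hDu : ∀ᶠ B in residual (H → G → Bool), merge F u B ∈ C := hg₀T.1.2 F
  have hconst : ∀ B, merge F u B ∈ C → f (merge F u B) = z := by
    intro B hB
    have hcl : merge F u B ∈ closure {w | ∃ g ∈ M, (∀ h ∈ F, g h = g₀ h) ∧ w = act g A} := by
      rw [mem_closure_iff]
      intro O hO hBO
      obtain ⟨I, I', hI1, hI2⟩ := (isOpen_pi_iff.1 hO) _ hBO
      have hch : ∀ h : H, ∃ γ : G, h ∈ I → shift γ (A h) ∈ I' h := by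
        intro h
        by_cases hh : h ∈ I
        · obtain ⟨γ, hγ⟩ := hA2 h (I' h) (hI1 h hh).1 ⟨_, (hI1 h hh).2⟩
          exact ⟨γ, fun _ => hγ⟩
        · exact ⟨1, fun h' => absurd h' hh⟩
      choose γ hγ using hch
      let g₁ : H → G := fun h => if h ∈ F then g₀ h else γ h
      have hopen : IsOpen {g : H → G | ∀ h ∈ F ∪ I, g h = g₁ h} := by
        have : {g : H → G | ∀ h ∈ F ∪ I, g h = g₁ h} =
            ⋂ h ∈ F ∪ I, (fun g : H → G => g h) ⁻¹' {g₁ h} := by
          ext g
          simp
        rw [this]
        exact isOpen_biInter_finset fun h _ => (isOpen_discrete _).preimage (continuous_apply h)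
      obtain ⟨g, hg1, hg2⟩ := hMd.inter_open_nonempty _ hopen ⟨g₁, fun h _ => rfl⟩
      refine ⟨act g A, hI2 ?_, g, hg2, ?_, rfl⟩
      · intro h hh
        have hh' : h ∈ I := hh
        have hgh : g h = g₁ h := hg1 h (Finset.mem_union_right _ hh')
        by_cases hF : h ∈ F
        · have h5 : merge F u B h ∈ I' h := (hI1 h hh').2
          have h6 : merge F u B h = act g A h := by
            simp only [merge, hF, if_true, hu, act, hgh, g₁]
          rw [← h6]
          exact h5
        · have h6 : act g A h = shift (γ h) (A h) := by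
            simp only [act, hgh, g₁, hF, if_false]
          rw [h6]
          exact hγ h hh'
      · intro h hh
        have hgh : g h = g₁ h := hg1 h (Finset.mem_union_left _ hh)
        rw [hgh]
        simp only [g₁, hh, if_true]
    have hsub : {w | ∃ g ∈ M, (∀ h ∈ F, g h = g₀ h) ∧ w = act g A} ⊆ C := by
      rintro w ⟨g, hg, -, rfl⟩
      exact hg.1
    have h1 : ContinuousWithinAt f {w | ∃ g ∈ M, (∀ h ∈ F, g h = g₀ h) ∧ w = act g A}
        (merge F u B) := (hfC _ hB).mono hsub
    have h2 := h1.mem_closure_image hcl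
    have h3 : f '' {w | ∃ g ∈ M, (∀ h ∈ F, g h = g₀ h) ∧ w = act g A} ⊆ {z} := by
      rintro _ ⟨w, ⟨g, hg, hgF, rfl⟩, rfl⟩
      exact hval g hg hgF
    have h4 := closure_mono h3 h2
    rwa [closure_singleton] at h4
  -- two inequivalent points with the same value
  obtain ⟨B, hB⟩ := (dense_of_mem_residual hDu).nonempty
  obtain ⟨h₁, hh₁⟩ := Infinite.exists_notMem_finset F
  have hav : ∀ᶠ B' in residual (H → G → Bool), ∀ p : H × G,
      B' h₁ ≠ shift p.2 (merge F u B (p.1⁻¹ * h₁)) := by
    rw [eventually_countable_forall]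
    intro p
    have ht : Tendsto (fun A : H → G → Bool => A h₁) (residual _) (residual (G → Bool)) :=
      tendsto_residual_of_isOpenMap (continuous_apply h₁) (isOpenMap_eval h₁)
    exact ht.eventually (eventually_ne _)
  obtain ⟨B', hB'1, hB'2⟩ := (dense_of_mem_residual (hDu.and hav)).nonempty
  have heq : f (merge F u B) = f (merge F u B') := by
    rw [hconst B hB, hconst B' hB'1]
  have hrel : (groupJump H (groupJump G (⊥ : Setoid Bool))) (merge F u B) (merge F u B') := by
    rw [hred, heq]
  obtain ⟨k, hk⟩ := hrel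
  have hk1 := hk h₁
  rw [bot_jump_iff] at hk1
  obtain ⟨g, hg⟩ := hk1
  have h7 : merge F u B' h₁ = B' h₁ := by
    simp only [merge, hh₁, if_false]
  apply hB'2 (k, g)
  rw [hg, h7]

end Double

lemma groupJump_congr {G X Y : Type*} [Group G] {E : Setoid X} {F : Setoid Y} (g : X → Y)
    (hg : ∀ x x', E x x' ↔ F (g x) (g x')) (α β : G → X) :
    (groupJump G E) α β ↔ (groupJump G F) (fun h => g (α h)) (fun h => g (β h)) := by
  constructor
  · rintro ⟨k, hk⟩
    exact ⟨k, fun h => (hg _ _).1 (hk h)⟩
  · rintro ⟨k, hk⟩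
    exact ⟨k, fun h => (hg _ _).2 (hk h)⟩

/-- For countably infinite groups `G` and `H`, every smooth equivalence relation `E` with at
least two classes on a Polish space, and every countable group `K`, the iterated jump
`(E^[G])^[H]` is not Borel reducible to `E^[K]`. -/
theorem result {G H K X : Type*} [Group G] [Group H] [Group K]
    [Countable G] [Countable H] [Countable K] [Infinite G] [Infinite H]
    [TopologicalSpace X] [PolishSpace X] (E : Setoid X) (hE : IsSmooth E)
    (a b : X) (hab : ¬ E a b) :
    ¬ BorelReducible (groupJump H (groupJump G E)) (groupJump K E) := by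
  rintro ⟨φ, hφ, hφr⟩
  obtain ⟨Z, tZ, pZ, g, hg, hgr⟩ := hE
  let ι : Bool → X := fun t => if t then b else a
  have hι : ∀ s t : Bool, (⊥ : Setoid Bool) s t ↔ E (ι s) (ι t) := by
    have hba : ¬ E b a := fun h => hab (E.symm' h)
    intro s t
    cases s <;> cases t
    · exact ⟨fun _ => E.refl' _, fun _ => (⊥ : Setoid Bool).refl' _⟩
    · exact ⟨fun h => absurd h (by change ¬ (false = true); simp), fun h => absurd h hab⟩
    · exact ⟨fun h => absurd h (by change ¬ (true = false); simp), fun h => absurd h hba⟩
    · exact ⟨fun _ => E.refl' _, fun _ => (⊥ : Setoid Bool).refl' _⟩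
  let J : (H → G → Bool) → (H → G → X) := fun A h k => ι (A h k)
  have hJc : Continuous J := by
    rw [continuous_pi_iff]
    intro h
    rw [continuous_pi_iff]
    intro k
    have h1 : Continuous ι := continuous_of_discreteTopology
    exact h1.comp (by fun_prop)
  have hJr : ∀ A A' : H → G → Bool, (groupJump H (groupJump G (⊥ : Setoid Bool))) A A' ↔
      (groupJump H (groupJump G E)) (J A) (J A') := fun A A' =>
    groupJump_congr (fun (α : G → Bool) k => ι (α k)) (groupJump_congr ι hι) A A'
  let P : (K → X) → (K → Z) := fun α k => g (α k)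
  have hPm : @Measurable _ _ (borel (K → X)) (borel (K → Z)) P := by
    let _ : MeasurableSpace X := borel X
    have : BorelSpace X := ⟨rfl⟩
    let _ : MeasurableSpace Z := borel Z
    have : BorelSpace Z := ⟨rfl⟩
    have e1 : borel (K → X) = MeasurableSpace.pi := (Pi.borelSpace (ι := K)).measurable_eq.symm
    have e2 : borel (K → Z) = MeasurableSpace.pi := (Pi.borelSpace (ι := K)).measurable_eq.symm
    rw [e1, e2]
    exact measurable_pi_lambda _ fun k => hg.comp (measurable_pi_apply k)
  have hPr : ∀ α β : K → X, (groupJump K E) α β ↔ (groupJump K (⊥ : Setoid Z)) (P α) (P β) :=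
    groupJump_congr g hgr
  have hR : ∀ z : K → Z, {z' : K → Z | (groupJump K (⊥ : Setoid Z)) z z'}.Countable := by
    intro z
    refine (countable_range (fun (k : K) (h : K) => z (k⁻¹ * h))).mono ?_
    rintro z' ⟨k, hk⟩
    exact ⟨k, funext fun h => hk h⟩
  refine core (G := G) (H := H) (groupJump K (⊥ : Setoid Z)) hR ⟨fun A => P (φ (J A)), ?_, ?_⟩
  · have hJm : @Measurable _ _ (borel (H → G → Bool)) (borel (H → G → X)) J := by
      borelize (H → G → Bool)
      borelize (H → G → X)
      exact hJc.measurable
    exact hPm.comp (hφ.comp hJm)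
  · intro A A'
    rw [hJr, hφr, hPr]

end Pool.Agent.Results.MP_9b97c3_lc.InfiniteGroups
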